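import Pool.Agent.H52R3.EpiMain

/-!
MP_3eb465_an, Q1 (negative answer): there is an epigraph in `ℝ^10`, uniformly `C^{2,γ}` smooth for
every `γ < 1`, and a positive reaction of class `C^{1,γ}`, for which the Dirichlet problem
`-Δu = f(u)` in `Ω`, `u = 0` on `∂Ω` has two different positive bounded solutions.

The analytic work (domain, sub- and supersolutions, existence between them, uniform smoothness) is
the starting development `Pool/Agent/H314/Dir`.
-/

open Metric Set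
open scoped InnerProductSpace

namespace Pool.Agent.Results.MP_3eb465_an.TwoSolutionsOnEpigraph

/-- The epigraph of `φ : ℝⁿ → ℝ` in `ℝ^(n+1)`; the last coordinate is the vertical one. -/
def epigraph {n : ℕ} (φ : (Fin n → ℝ) → ℝ) : Set (EuclideanSpace ℝ (Fin (n + 1))) :=
  {X | φ (fun i => X (Fin.castSucc i)) < X (Fin.last n)}

/-- `f` is a positive reaction whose derivative is bounded and `γ`-Hölder continuous (on `ℝ`, hence
on `[0,∞)`). -/
structure IsPositiveReaction (γ : NNReal) (f : ℝ → ℝ) : Prop where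
  contDiff : ContDiff ℝ 1 f
  deriv_bounded : ∃ C : ℝ, ∀ t, |deriv f t| ≤ C
  deriv_holder : ∃ C : NNReal, HolderWith C γ (deriv f)
  zero : f 0 = 0
  one : f 1 = 0
  pos : ∀ t, 0 < t → t < 1 → 0 < f t
  deriv_zero : 0 < deriv f 0
  neg : ∀ t, 1 < t → f t < 0
  deriv_one : deriv f 1 < 0

/-- `Ω` is uniformly `C^{2,γ}` smooth: there are `r > 0` and `M` such that, for every boundary
point `p`, the part of `Ω` in the ball `B_r(p)` is the part of that ball lying above (in some unit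
direction `ν`) the graph of a function `g` of the component orthogonal to `ν`, where `g` and its
first two derivatives are bounded by `M` and the second derivative is `γ`-Hölder with constant `M`. -/
def UniformlySmooth {d : ℕ} (γ : NNReal) (Ω : Set (EuclideanSpace ℝ (Fin d))) : Prop :=
  ∃ r : ℝ, 0 < r ∧ ∃ M : NNReal, ∀ p ∈ frontier Ω,
    ∃ ν : EuclideanSpace ℝ (Fin d), ‖ν‖ = 1 ∧ ∃ g : EuclideanSpace ℝ (Fin d) → ℝ,
      ContDiff ℝ 2 g ∧
      (∀ x, |g x| ≤ M ∧ ‖fderiv ℝ g x‖ ≤ M ∧ ‖iteratedFDeriv ℝ 2 g x‖ ≤ M) ∧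
      HolderWith M γ (iteratedFDeriv ℝ 2 g) ∧
      ∀ q ∈ ball p r,
        (q ∈ Ω ↔ g (q - p - (inner ℝ (q - p) ν) • ν) < inner ℝ (q - p) ν)

/-- `u` is a positive bounded solution of `-Δu = f(u)` in `Ω`, `u = 0` on `∂Ω`. -/
structure IsPositiveBoundedSolution {d : ℕ} (f : ℝ → ℝ) (Ω : Set (EuclideanSpace ℝ (Fin d)))
    (u : EuclideanSpace ℝ (Fin d) → ℝ) : Prop where
  contDiffOn : ContDiffOn ℝ 2 u Ω
  continuousOn : ContinuousOn u (closure Ω)
  bounded : ∃ C : ℝ, ∀ x ∈ Ω, |u x| ≤ C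
  pos : ∀ x ∈ Ω, 0 < u x
  boundary : ∀ x ∈ frontier Ω, u x = 0
  equation : ∀ x ∈ Ω, -(Laplacian.laplacian u x) = f (u x)

open Pool.Agent.H314.Dir Pool.Agent.H52R3.Epi in
/-- Two different positive bounded solutions on a uniformly smooth epigraph in `ℝ^10`. -/
theorem result : ∃ (φ : (Fin 9 → ℝ) → ℝ) (f : ℝ → ℝ)
    (u v : EuclideanSpace ℝ (Fin (9 + 1)) → ℝ),
    ContDiff ℝ 2 φ ∧
    (∀ γ : NNReal, 0 < γ → γ < 1 → IsPositiveReaction γ f ∧ UniformlySmooth γ (epigraph φ)) ∧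
    IsPositiveBoundedSolution f (epigraph φ) u ∧ IsPositiveBoundedSolution f (epigraph φ) v ∧
    ∃ x ∈ epigraph φ, u x ≠ v x := by
  obtain ⟨φ, hφ, hep⟩ : ∃ φ : (Fin 9 → ℝ) → ℝ, ContDiff ℝ 2 φ ∧ epigraph φ = Om := by
    refine ⟨fun w : Fin 9 → ℝ => -Real.cos (Real.pi / 2 * w 0) *
      Real.exp (Real.sqrt (1000000 + ∑ i : Fin 8, (w i.succ) ^ 2)) -
      (1000000 + ∑ i : Fin 8, (w i.succ) ^ 2), ?_, ?_⟩
    · have hS : ContDiff ℝ 2 (fun w : Fin 9 → ℝ => 1000000 + ∑ i : Fin 8, (w i.succ) ^ 2) := by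
        fun_prop
      have hpos : ∀ w : Fin 9 → ℝ, 1000000 + ∑ i : Fin 8, (w i.succ) ^ 2 ≠ 0 := by
        intro w
        have : 0 ≤ ∑ i : Fin 8, (w i.succ) ^ 2 := Finset.sum_nonneg fun i _ => sq_nonneg _
        linarith
      have hc : ContDiff ℝ 2 (fun w : Fin 9 → ℝ => Real.cos (Real.pi / 2 * w 0)) := by
        fun_prop
      exact ((hc.neg).mul ((hS.sqrt hpos).exp)).sub hS
    · ext X
      exact (DF.FF_neg_iff X).symm
  obtain ⟨u, u1, u2, u3, u4, u5, u6⟩ := exists_large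
  obtain ⟨v, v1, v2, v3, v4, v5, v6⟩ := exists_small
  refine ⟨φ, fr, u, v, hφ, ?_, ?_, ?_, 0, ?_, ?_⟩
  · intro γ h0 h1
    refine ⟨⟨contDiff_fr, ⟨_, deriv_fr_bdd⟩, holder_fr γ h1.le, fr_zero, fr_one,
      fun t => fr_pos, deriv_fr_zero, fun t => fr_neg, deriv_fr_one⟩, ?_⟩
    rw [hep]
    obtain ⟨c, hc, hg⟩ := DF.grad_FF
    obtain ⟨C, hC⟩ := DF.bound_FF
    obtain ⟨r, hr, M, hM⟩ := unif_graph FF DF.contDiff_FF c C hc hg hC γ h0 h1
    exact ⟨r, hr, M, fun p hp => hM p (DF.frontier_subset hp)⟩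
  · rw [hep]
    refine ⟨u1, u2, ⟨1, fun x hx => ?_⟩, u4, u3, fun x hx => ?_⟩
    · rw [abs_of_pos (u4 x hx)]
      exact (u5 x hx).2
    · rw [← lap_eq_laplacian]
      exact u6 x hx
  · rw [hep]
    refine ⟨v1, v2, ⟨1, fun x hx => ?_⟩, v4, v3, fun x hx => ?_⟩
    · rw [abs_of_pos (v4 x hx)]
      exact (v5 x hx).2.trans (Sp.Sf_le_one x)
    · rw [← lap_eq_laplacian]
      exact v6 x hx
  · rw [hep]
    exact zero_mem
  · have h1 := (u5 0 zero_mem).1
    have h2 := (v5 0 zero_mem).2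
    rw [Sb.Vf_zero] at h1
    have h3 := Sp.Sf_zero
    intro h
    linarith

end Pool.Agent.Results.MP_3eb465_an.TwoSolutionsOnEpigraph
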